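import Pool.Agent.helper32.QS.Spec

/-!
# Project qs: (MP_e82547_al): module NIb1 (arithmetic)
-/

set_option autoImplicit false

open scoped BigOperators commutatorElement

namespace QS

lemma NIb1_Om_le (e : ℕ) (he : 2 ≤ e) : Om e ≤ Nat.log 2 e := by
  have h1 : 2 ^ Om e ≤ e := by
    have h2 : ∀ l : List ℕ, (∀ x ∈ l, 2 ≤ x) → 2 ^ l.length ≤ l.prod := by
      intro l
      induction l with
      | nil => intro _; simp
      | cons a t ih =>
        intro h
        have ha : 2 ≤ a := h a (by simp)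
        have ht := ih (fun x hx => h x (by simp [hx]))
        rw [List.length_cons, List.prod_cons, pow_succ, mul_comm]
        exact Nat.mul_le_mul ha ht
    have h3 := h2 e.primeFactorsList (fun x hx => (Nat.prime_of_mem_primeFactorsList hx).two_le)
    rw [Nat.prod_primeFactorsList (by omega)] at h3
    exact h3
  exact (Nat.le_log_iff_pow_le (by norm_num) (by omega)).mpr h1

lemma NIb1_Bd_le (e : ℕ) (he : 2 ≤ e) :
    Bd e ≤ 2 ^ ((Nat.log 2 e + 1) * (2 * Nat.log 2 e + 3)) := by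
  have hO := NIb1_Om_le e he
  have h2 : e ≤ 2 ^ (Nat.log 2 e + 1) := (Nat.lt_pow_succ_log_self (by norm_num) e).le
  unfold Bd
  have h3 : e ^ 2 - 1 ≤ (2 ^ (Nat.log 2 e + 1)) ^ 2 :=
    (Nat.sub_le _ _).trans (Nat.pow_le_pow_left h2 2)
  have h4 : e ^ (2 * Om e + 1) ≤ (2 ^ (Nat.log 2 e + 1)) ^ (2 * Nat.log 2 e + 1) := by
    calc e ^ (2 * Om e + 1) ≤ e ^ (2 * Nat.log 2 e + 1) := Nat.pow_le_pow_right (by omega) (by omega)
      _ ≤ _ := Nat.pow_le_pow_left h2 _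
  calc (e ^ 2 - 1) * e ^ (2 * Om e + 1)
      ≤ (2 ^ (Nat.log 2 e + 1)) ^ 2 * (2 ^ (Nat.log 2 e + 1)) ^ (2 * Nat.log 2 e + 1) :=
        Nat.mul_le_mul h3 h4
    _ = 2 ^ ((Nat.log 2 e + 1) * (2 * Nat.log 2 e + 3)) := by
        rw [← pow_mul, ← pow_mul, ← pow_add]
        congr 1
        ring

lemma NIb1_num (L : ℕ) (hL : 2 ≤ L) : 2 + 2 * ((L + 1) * (2 * L + 3)) + 51 ≤ 34 * 2 ^ L := by
  induction L, hL using Nat.le_induction with
  | base => norm_num
  | succ n hn ih =>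
    rw [pow_succ]
    nlinarith

/-- `4 (Bd e)^2 ≤ (2^17)^(2n-3)` -/
lemma NIb1_key (e n : ℕ) (he : 2 ≤ e) (hen : e ≤ n) : 4 * (Bd e) ^ 2 ≤ (2 ^ 17) ^ (2 * n - 3) := by
  rcases Nat.lt_or_ge e 3 with h | h
  · have he2 : e = 2 := by omega
    subst he2
    have hB : Bd 2 ≤ 2 ^ 5 := by
      unfold Bd
      have : Om 2 = 1 := by
        unfold Om
        rw [Nat.primeFactorsList_prime Nat.prime_two]
        rfl
      rw [this]
      norm_num
    calc 4 * (Bd 2) ^ 2 ≤ 4 * (2 ^ 5) ^ 2 := Nat.mul_le_mul_left 4 (Nat.pow_le_pow_left hB 2)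
      _ ≤ (2 ^ 17) ^ 1 := by norm_num
      _ ≤ (2 ^ 17) ^ (2 * n - 3) := Nat.pow_le_pow_right (by norm_num) (by omega)
  · have hB := NIb1_Bd_le e he
    have h5 : 4 * (Bd e) ^ 2 ≤ 2 ^ (2 + 2 * ((Nat.log 2 e + 1) * (2 * Nat.log 2 e + 3))) := by
      calc 4 * (Bd e) ^ 2 ≤ 4 * (2 ^ ((Nat.log 2 e + 1) * (2 * Nat.log 2 e + 3))) ^ 2 :=
            Nat.mul_le_mul_left 4 (Nat.pow_le_pow_left hB 2)
        _ = 2 ^ (2 + 2 * ((Nat.log 2 e + 1) * (2 * Nat.log 2 e + 3))) := by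
            rw [← pow_mul, pow_add, mul_comm 2 ((Nat.log 2 e + 1) * (2 * Nat.log 2 e + 3))]
            norm_num
    refine h5.trans ?_
    rw [← pow_mul]
    apply Nat.pow_le_pow_right (by norm_num)
    rcases Nat.lt_or_ge (Nat.log 2 e) 2 with hL | hL
    · have hL1 : Nat.log 2 e ≤ 1 := by omega
      have h6 : (Nat.log 2 e + 1) * (2 * Nat.log 2 e + 3) ≤ (1 + 1) * (2 * 1 + 3) :=
        Nat.mul_le_mul (by omega) (by omega)
      omega
    · have h7 := NIb1_num (Nat.log 2 e) hL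
      have h8 : 2 ^ Nat.log 2 e ≤ e := Nat.pow_log_le_self 2 (by omega)
      omega

theorem NIb1 : NIb1_stmt := by
  intro e n r s he hen hr hs hK
  set K := r ^ s with hKdef
  have hs2 : s ^ 2 ≤ K := by
    rcases Nat.lt_or_ge s 4 with h | h
    · have : s ^ 2 ≤ 3 ^ 2 := Nat.pow_le_pow_left (by omega) 2
      omega
    · have h1 : s ^ 2 ≤ 2 ^ s := by
        clear hK hKdef K hs
        induction s, h using Nat.le_induction with
        | base => norm_num
        | succ m hm ih =>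
          rw [pow_succ 2 m]
          nlinarith
      exact h1.trans (Nat.pow_le_pow_left hr.two_le s)
  have hBpos : 0 < Bd e := by
    unfold Bd
    have h1 : 2 ^ 2 ≤ e ^ 2 := Nat.pow_le_pow_left he 2
    have h2 : 0 < e ^ (2 * Om e + 1) := by positivity
    exact Nat.mul_pos (by omega) h2
  have hkey := NIb1_key e n he hen
  have hK17 : 2 ^ 17 ≤ K := by
    have : (2 : ℕ) ^ 17 = 131072 := by norm_num
    omega
  have hkey2 : 4 * (Bd e) ^ 2 ≤ K ^ (2 * n - 3) := hkey.trans (Nat.pow_le_pow_left hK17 _)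
  have hA : 1 ≤ s * (K - 1) * Bd e := by
    have : 0 < s * (K - 1) := Nat.mul_pos (by omega) (by omega)
    exact Nat.mul_pos this hBpos
  have hsq : (s * (K - 1) * Bd e + 1) ^ 2 < (K ^ n) ^ 2 := by
    calc (s * (K - 1) * Bd e + 1) ^ 2 ≤ (2 * (s * (K - 1) * Bd e)) ^ 2 :=
          Nat.pow_le_pow_left (by omega) 2
      _ = s ^ 2 * (K - 1) ^ 2 * (4 * (Bd e) ^ 2) := by ring
      _ ≤ K * (K - 1) ^ 2 * K ^ (2 * n - 3) :=
          Nat.mul_le_mul (Nat.mul_le_mul_right _ hs2) hkey2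
      _ < K * K ^ 2 * K ^ (2 * n - 3) := by
          have h1 : (K - 1) ^ 2 < K ^ 2 := Nat.pow_lt_pow_left (by omega) (by norm_num)
          have h2 : K * (K - 1) ^ 2 < K * K ^ 2 := Nat.mul_lt_mul_of_pos_left h1 (by omega)
          exact Nat.mul_lt_mul_of_pos_right h2 (by positivity)
      _ = (K ^ n) ^ 2 := by
          have h3 : K * K ^ 2 * K ^ (2 * n - 3) = K ^ (3 + (2 * n - 3)) := by
            rw [pow_add]; ring
          have h4 : 3 + (2 * n - 3) = n * 2 := by omega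
          rw [h3, h4, pow_mul]
  exact lt_of_pow_lt_pow_left₀ 2 (Nat.zero_le _) hsq

end QS
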