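import Pool.Agent.helper4.QS.Spec

open scoped BigOperators ComplexOrder ComplexConjugate Topology
open Filter

namespace Pool.Agent.QS

open Pool.Agent.helper86.CM MeasureTheory

noncomputable section

abbrev SNG_T := UnitAddTorus (Fin 1 ⊕ Fin 1)

theorem SNG_cont (n : Lat 1) : Continuous (chr (g := 1) n) := (UnitAddTorus.mFourier n).continuous

theorem SNG_mul (n m : Lat 1) (y : SNG_T) : conj (chr n y) * chr m y = chr (m - n) y := by
  unfold chr
  rw [← UnitAddTorus.mFourier_neg, ← UnitAddTorus.mFourier_add]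
  congr 1
  abel_nf

theorem SNG_int (ν : Measure SNG_T) [IsFiniteMeasure ν] {f : SNG_T → ℂ} (hf : Continuous f) :
    Integrable f ν :=
  hf.integrable_of_hasCompactSupport (HasCompactSupport.of_compactSpace f)

theorem SNG_intR (ν : Measure SNG_T) [IsFiniteMeasure ν] {f : SNG_T → ℝ} (hf : Continuous f) :
    Integrable f ν :=
  hf.integrable_of_hasCompactSupport (HasCompactSupport.of_compactSpace f)

theorem SNG_volu : (volume : Measure UnitAddCircle) = AddCircle.haarAddCircle := by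
  have h := AddCircle.volume_eq_smul_haarAddCircle (T := 1)
  rw [ENNReal.ofReal_one, one_smul] at h
  exact h

theorem SNG_volp : (volume : Measure SNG_T) = Measure.pi fun _ => AddCircle.haarAddCircle := by
  have h : (volume : Measure SNG_T) = Measure.pi fun _ => volume := rfl
  rw [h]
  congr 1
  funext i
  exact SNG_volu

theorem SNG_vol (m : Lat 1) (hm : m ≠ 0) : ∫ y : SNG_T, chr (g := 1) m y = 0 := by
  have h := (orthonormal_iff_ite.1 (UnitAddTorus.orthonormal_mFourier (d := Fin 1 ⊕ Fin 1))) 0 m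
  rw [if_neg (Ne.symm hm)] at h
  simp only [ContinuousMap.inner_toLp, ← UnitAddTorus.mFourier_neg, ← UnitAddTorus.mFourier_add] at h
  rw [SNG_volp]
  simp only [chr]
  rw [neg_zero, add_zero] at h
  exact h

/-- the averages -/
def SNG_A (n : ℕ → Lat 1) (l : ℕ) (y : SNG_T) : ℂ := (l : ℂ)⁻¹ * ∑ r ∈ Finset.range l, chr (n r) y

theorem SNG_A_cont (n : ℕ → Lat 1) (l : ℕ) : Continuous (SNG_A n l) := by
  unfold SNG_A
  exact continuous_const.mul (continuous_finsetSum _ fun r _ => SNG_cont _)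

theorem SNG_sq (n : ℕ → Lat 1) (l : ℕ) (y : SNG_T) :
    ((‖SNG_A n l y‖ ^ 2 : ℝ) : ℂ) = ((l : ℂ) ^ 2)⁻¹ * ∑ r ∈ Finset.range l,
      ∑ r' ∈ Finset.range l, chr (n r' - n r) y := by
  have h1 : ((‖SNG_A n l y‖ ^ 2 : ℝ) : ℂ) = conj (SNG_A n l y) * SNG_A n l y := by
    rw [Complex.conj_mul']
    push_cast
    rfl
  rw [h1]
  unfold SNG_A
  rw [map_mul, map_inv₀, Complex.conj_natCast, map_sum]
  have h2 : ∀ a b : ℂ, (l : ℂ)⁻¹ * a * ((l : ℂ)⁻¹ * b) = ((l : ℂ) ^ 2)⁻¹ * (a * b) := by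
    intro a b
    rw [pow_two, mul_inv]
    ring
  rw [h2, Finset.sum_mul_sum]
  congr 1
  refine Finset.sum_congr rfl fun r _ => Finset.sum_congr rfl fun r' _ => ?_
  exact SNG_mul _ _ _

theorem SNG_isq (ν : Measure SNG_T) [IsFiniteMeasure ν] (n : ℕ → Lat 1) (l : ℕ) :
    ((∫ y, ‖SNG_A n l y‖ ^ 2 ∂ν : ℝ) : ℂ) = ((l : ℂ) ^ 2)⁻¹ * ∑ r ∈ Finset.range l,
      ∑ r' ∈ Finset.range l, ∫ y, chr (n r' - n r) y ∂ν := by
  have h0 : ((∫ y, ‖SNG_A n l y‖ ^ 2 ∂ν : ℝ) : ℂ) = ∫ y, ((‖SNG_A n l y‖ ^ 2 : ℝ) : ℂ) ∂ν :=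
    (integral_complex_ofReal (f := fun y => ‖SNG_A n l y‖ ^ 2)).symm
  have : (fun y => ((‖SNG_A n l y‖ ^ 2 : ℝ) : ℂ)) = fun y => ((l : ℂ) ^ 2)⁻¹ *
      ∑ r ∈ Finset.range l, ∑ r' ∈ Finset.range l, chr (n r' - n r) y := by
    funext y
    exact SNG_sq n l y
  rw [h0, this]
  rw [integral_const_mul, integral_finsetSum]
  · congr 1
    refine Finset.sum_congr rfl fun r _ => ?_
    rw [integral_finsetSum]
    intro r' _
    exact SNG_int ν (SNG_cont _)
  · intro r _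
    exact SNG_int ν (continuous_finsetSum _ fun r' _ => SNG_cont _)

/-- the mean square for the volume -/
theorem SNG_v (n : ℕ → Lat 1) (hn : Function.Injective n) (l : ℕ) (hl : 0 < l) :
    ∫ y : SNG_T, ‖SNG_A n l y‖ ^ 2 = 1 / l := by
  have h := SNG_isq (volume : Measure SNG_T) n l
  have h1 : ∀ r ∈ Finset.range l, ∑ r' ∈ Finset.range l, ∫ y : SNG_T, chr (n r' - n r) y = 1 := by
    intro r hr
    rw [Finset.sum_eq_single r]
    · rw [SNG_volp]
      simp [chr, UnitAddTorus.mFourier_zero]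
    · intro r' _ hne
      exact SNG_vol _ (sub_ne_zero.2 fun h => hne (hn h))
    · intro h
      exact absurd hr h
  rw [Finset.sum_congr rfl h1] at h
  simp only [Finset.sum_const, Finset.card_range, nsmul_eq_mul, mul_one] at h
  have hl' : (l : ℂ) ≠ 0 := by
    exact_mod_cast hl.ne'
  have h2 : ((l : ℂ) ^ 2)⁻¹ * l = ((1 / (l : ℝ) : ℝ) : ℂ) := by
    push_cast
    field_simp
  rw [h2] at h
  exact_mod_cast h

/-- the mean square for `μ` -/
theorem SNG_m (μ : Measure SNG_T) [IsProbabilityMeasure μ] (n : ℕ → Lat 1) (c : ℝ)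
    (hc : ∀ r, ∫ y, chr (n r) y ∂μ = c) (l : ℕ) (hl : 0 < l) :
    ∫ y, ‖SNG_A n l y - c‖ ^ 2 ∂μ = (∫ y, ‖SNG_A n l y‖ ^ 2 ∂μ) - c ^ 2 := by
  have hA : ∫ y, SNG_A n l y ∂μ = c := by
    unfold SNG_A
    rw [integral_const_mul, integral_finsetSum _ fun r _ => SNG_int μ (SNG_cont _)]
    rw [Finset.sum_congr rfl fun r _ => hc r, Finset.sum_const, Finset.card_range, nsmul_eq_mul,
      ← mul_assoc, inv_mul_cancel₀, one_mul]
    exact_mod_cast hl.ne'
  have hre : ∫ y, (SNG_A n l y).re ∂μ = c := by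
    have := integral_re (SNG_int μ (SNG_A_cont n l))
    simp only [RCLike.re_to_complex] at this
    rw [this, hA, Complex.ofReal_re]
  have h1 : ∀ y, ‖SNG_A n l y - c‖ ^ 2 = ‖SNG_A n l y‖ ^ 2 - 2 * c * (SNG_A n l y).re + c ^ 2 := by
    intro y
    rw [← Complex.normSq_eq_norm_sq, ← Complex.normSq_eq_norm_sq, Complex.normSq_apply,
      Complex.normSq_apply]
    simp only [Complex.sub_re, Complex.sub_im, Complex.ofReal_re, Complex.ofReal_im]
    ring
  simp only [h1]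
  have c1 : Continuous fun y => ‖SNG_A n l y‖ ^ 2 := (SNG_A_cont n l).norm.pow 2
  have c2 : Continuous fun y => 2 * c * (SNG_A n l y).re :=
    continuous_const.mul (Complex.continuous_re.comp (SNG_A_cont n l))
  have e1 : ∫ y, (‖SNG_A n l y‖ ^ 2 - 2 * c * (SNG_A n l y).re + c ^ 2) ∂μ =
      (∫ y, (‖SNG_A n l y‖ ^ 2 - 2 * c * (SNG_A n l y).re) ∂μ) + ∫ _y, c ^ 2 ∂μ :=
    integral_add (f := fun y => ‖SNG_A n l y‖ ^ 2 - 2 * c * (SNG_A n l y).re)
      (g := fun _ => c ^ 2) (SNG_intR μ (c1.sub c2)) (integrable_const _)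
  have e2 : ∫ y, (‖SNG_A n l y‖ ^ 2 - 2 * c * (SNG_A n l y).re) ∂μ =
      (∫ y, ‖SNG_A n l y‖ ^ 2 ∂μ) - ∫ y, 2 * c * (SNG_A n l y).re ∂μ :=
    integral_sub (f := fun y => ‖SNG_A n l y‖ ^ 2) (g := fun y => 2 * c * (SNG_A n l y).re)
      (SNG_intR μ c1) (SNG_intR μ c2)
  have e3 : ∫ y, 2 * c * (SNG_A n l y).re ∂μ = 2 * c * c := by
    rw [integral_const_mul, hre]
  rw [e1, e2, e3]
  simp only [integral_const, probReal_univ, smul_eq_mul, one_mul]
  ring

theorem SNG : SNG_stmt := by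
  intro μ hμ n c hc hn hint hlim
  have := hμ
  -- mean squares
  have hm : Tendsto (fun l => ∫ y, ‖SNG_A n l y - c‖ ^ 2 ∂μ) atTop (𝓝 0) := by
    have h1 : Tendsto (fun l => (∫ y, ‖SNG_A n l y‖ ^ 2 ∂μ) - c ^ 2) atTop (𝓝 (c ^ 2 - c ^ 2)) := by
      refine Tendsto.sub_const ?_ _
      have h2 : Tendsto (fun l => ((∫ y, ‖SNG_A n l y‖ ^ 2 ∂μ : ℝ) : ℂ)) atTop
          (𝓝 ((c ^ 2 : ℝ) : ℂ)) := by
        refine hlim.congr fun l => ?_
        rw [SNG_isq]
      have h3 := (Complex.continuous_re.tendsto _).comp h2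
      simpa only [Function.comp_def, Complex.ofReal_re] using h3
    rw [sub_self] at h1
    refine h1.congr' ?_
    filter_upwards [eventually_gt_atTop 0] with l hl
    rw [SNG_m μ n c hint l hl]
  have hv : Tendsto (fun l => ∫ y : SNG_T, ‖SNG_A n l y‖ ^ 2) atTop (𝓝 0) := by
    have h1 : Tendsto (fun l : ℕ => 1 / (l : ℝ)) atTop (𝓝 0) := tendsto_one_div_atTop_nhds_zero_nat
    refine h1.congr' ?_
    filter_upwards [eventually_gt_atTop 0] with l hl
    rw [SNG_v n hn l hl]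
  set a : ℝ := c ^ 2 / 4 with ha
  have ha0 : 0 < a := by positivity
  -- the sets
  set S : ℕ → Set SNG_T := fun l => {y | a ≤ ‖SNG_A n l y‖ ^ 2} with hS
  have hSm : ∀ l, MeasurableSet (S l) := fun l =>
    measurableSet_le measurable_const (((SNG_A_cont n l).norm.pow 2).measurable)
  have hSc : ∀ l, (S l)ᶜ ⊆ {y | a ≤ ‖SNG_A n l y - c‖ ^ 2} := by
    intro l y hy
    simp only [hS, Set.mem_compl_iff, Set.mem_ofPred_eq, not_le] at hy
    show a ≤ ‖SNG_A n l y - c‖ ^ 2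
    have h1 : ‖SNG_A n l y‖ < |c| / 2 := by
      by_contra hcon
      push Not at hcon
      have : (|c| / 2) ^ 2 ≤ ‖SNG_A n l y‖ ^ 2 := pow_le_pow_left₀ (by positivity) hcon 2
      rw [div_pow, sq_abs] at this
      have e : a = c ^ 2 / 2 ^ 2 := by rw [ha]; norm_num
      linarith
    have h2 : |c| / 2 ≤ ‖SNG_A n l y - c‖ := by
      have h3 : ‖(c : ℂ)‖ ≤ ‖SNG_A n l y - c‖ + ‖SNG_A n l y‖ := by
        have := norm_sub_le (SNG_A n l y) (SNG_A n l y - c)
        rw [sub_sub_cancel] at this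
        linarith
      rw [Complex.norm_real, Real.norm_eq_abs] at h3
      linarith
    have h4 : (|c| / 2) ^ 2 ≤ ‖SNG_A n l y - c‖ ^ 2 := pow_le_pow_left₀ (by positivity) h2 2
    rw [div_pow, sq_abs] at h4
    have e : a = c ^ 2 / 2 ^ 2 := by rw [ha]; norm_num
    linarith
  -- Markov
  have hMv : ∀ l, a * (volume : Measure SNG_T).real (S l) ≤ ∫ y : SNG_T, ‖SNG_A n l y‖ ^ 2 :=
    fun l => mul_meas_ge_le_integral_of_nonneg (Eventually.of_forall fun y => sq_nonneg _)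
      (SNG_intR _ ((SNG_A_cont n l).norm.pow 2)) a
  have hMm : ∀ l, a * μ.real (S l)ᶜ ≤ ∫ y, ‖SNG_A n l y - c‖ ^ 2 ∂μ := by
    intro l
    have h1 := mul_meas_ge_le_integral_of_nonneg (μ := μ)
      (f := fun y => ‖SNG_A n l y - c‖ ^ 2) (Eventually.of_forall fun y => sq_nonneg _)
      (SNG_intR _ (((SNG_A_cont n l).sub continuous_const).norm.pow 2)) a
    refine le_trans (mul_le_mul_of_nonneg_left ?_ ha0.le) h1
    exact measureReal_mono (hSc l)
  have hex : ∀ j : ℕ, ∃ l, (volume : Measure SNG_T) (S l) ≤ ENNReal.ofReal ((1 / 2) ^ j) ∧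
      μ (S l)ᶜ ≤ ENNReal.ofReal ((1 / 2) ^ j) := by
    intro j
    have hp : (0 : ℝ) < a * (1 / 2) ^ j := by positivity
    obtain ⟨l, h1, h2⟩ := ((hm.eventually (gt_mem_nhds hp)).and (hv.eventually (gt_mem_nhds hp))).exists
    refine ⟨l, ?_, ?_⟩
    · have h3 := lt_of_le_of_lt (hMv l) h2
      have h4 := lt_of_mul_lt_mul_left h3 ha0.le
      rw [← ofReal_measureReal]
      exact ENNReal.ofReal_le_ofReal h4.le
    · have h3 := lt_of_le_of_lt (hMm l) h1
      have h4 := lt_of_mul_lt_mul_left h3 ha0.le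
      rw [← ofReal_measureReal]
      exact ENNReal.ofReal_le_ofReal h4.le
  choose L hL1 hL2 using hex
  have hsum : (∑' j : ℕ, ENNReal.ofReal ((1 / 2 : ℝ) ^ j)) ≠ ⊤ := by
    have hs : Summable fun j : ℕ => (1 / 2 : ℝ) ^ j := summable_geometric_two
    rw [← ENNReal.ofReal_tsum_of_nonneg (f := fun j : ℕ => (1 / 2 : ℝ) ^ j)
      (fun j => pow_nonneg (by norm_num) j) hs]
    exact ENNReal.ofReal_ne_top
  have hT1 : (volume : Measure SNG_T) (limsup (fun j => S (L j)) atTop) = 0 :=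
    measure_limsup_atTop_eq_zero (ne_top_of_le_ne_top hsum (ENNReal.tsum_le_tsum hL1))
  have hT2 : μ (limsup (fun j => (S (L j))ᶜ) atTop) = 0 :=
    measure_limsup_atTop_eq_zero (ne_top_of_le_ne_top hsum (ENNReal.tsum_le_tsum hL2))
  refine ⟨(limsup (fun j => S (L j)) atTop)ᶜ, ?_, ?_, ?_⟩
  · exact (MeasurableSet.measurableSet_limsup fun j => hSm _).compl
  · refine measure_mono_null ?_ hT2
    intro y hy
    rw [Set.mem_compl_iff, mem_limsup_iff_frequently_mem, not_frequently] at hy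
    rw [mem_limsup_iff_frequently_mem]
    exact hy.frequently
  · rw [compl_compl]
    exact hT1

end

end Pool.Agent.QS
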