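import Pool.Agent.helper4.QS.Spec

open scoped BigOperators ComplexOrder ComplexConjugate Topology
open Filter

namespace Pool.Agent.QS

open Pool.Agent.helper86.CM

theorem OMB : OMB_stmt := by
  intro m n
  have h1 : omega m n = m (Sum.inl 0) * n (Sum.inr 0) - m (Sum.inr 0) * n (Sum.inl 0) := by
    unfold omega
    simp
  have hm : ∀ i, |(m i : ℝ)| ≤ ‖m‖ := fun i => by
    have := norm_le_pi_norm m i
    rwa [Int.norm_eq_abs] at this
  have hn : ∀ i, |(n i : ℝ)| ≤ ‖n‖ := fun i => by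
    have := norm_le_pi_norm n i
    rwa [Int.norm_eq_abs] at this
  rw [h1]
  push_cast
  have a1 : |(m (Sum.inl 0) : ℝ) * (n (Sum.inr 0) : ℝ)| ≤ ‖m‖ * ‖n‖ := by
    rw [abs_mul]
    exact mul_le_mul (hm _) (hn _) (abs_nonneg _) (norm_nonneg _)
  have a2 : |(m (Sum.inr 0) : ℝ) * (n (Sum.inl 0) : ℝ)| ≤ ‖m‖ * ‖n‖ := by
    rw [abs_mul]
    exact mul_le_mul (hm _) (hn _) (abs_nonneg _) (norm_nonneg _)
  have a3 := abs_sub (((m (Sum.inl 0) : ℝ)) * (n (Sum.inr 0) : ℝ))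
    ((m (Sum.inr 0) : ℝ) * (n (Sum.inl 0) : ℝ))
  linarith

end Pool.Agent.QS
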